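import Pool.Agent.H41.Lib.H326R2.Pi.Stmts
/-! Task T15 of helper326 (irrationality measure of `π`): the linear forms are small. -/

namespace Pool.Agent.H303R2.PiT15

open Pool.Agent.H326R2.Pi

theorem t15 (hprim : S_prim) (him : S_im) (hseg : S_seg) : S_small := by
  intro n hn k Ψ hΨ
  set r : ℝ := 2 * Real.exp (-(6.53 * n)) with hr
  have hr0 : 0 ≤ r := by positivity
  have h1 : ‖Prim n k Ψ vv - Prim n k Ψ (1 + Complex.I)‖ ≤ r * ‖vv - (1 + Complex.I)‖ := by
    apply Convex.norm_image_sub_le_of_norm_hasDerivWithin_le (f' := Fi n)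
      (s := segment ℝ (1 + Complex.I) vv)
    · intro x hx
      obtain ⟨a, b, -⟩ := hseg n x (Or.inl hx)
      exact (hprim n hn k Ψ hΨ x a b).hasDerivWithinAt
    · intro x hx
      exact (hseg n x (Or.inl hx)).2.2
    · exact convex_segment _ _
    · exact left_mem_segment _ _ _
    · exact right_mem_segment _ _ _
  have h2 : ‖Prim n k Ψ 1 - Prim n k Ψ vv‖ ≤ r * ‖1 - vv‖ := by
    apply Convex.norm_image_sub_le_of_norm_hasDerivWithin_le (f' := Fi n)
      (s := segment ℝ vv 1)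
    · intro x hx
      obtain ⟨a, b, -⟩ := hseg n x (Or.inr hx)
      exact (hprim n hn k Ψ hΨ x a b).hasDerivWithinAt
    · intro x hx
      exact (hseg n x (Or.inr hx)).2.2
    · exact convex_segment _ _
    · exact left_mem_segment _ _ _
    · exact right_mem_segment _ _ _
  have d1 : ‖vv - (1 + Complex.I)‖ ≤ 1 := by
    have : vv - (1 + Complex.I) = ((3 / 14 : ℝ) : ℂ) + ((-1 / 2 : ℝ) : ℂ) * Complex.I := by
      rw [vv]; push_cast; ring
    rw [this]
    refine (norm_add_le _ _).trans ?_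
    rw [norm_mul, Complex.norm_real, Complex.norm_real, Complex.norm_I]
    norm_num
  have d2 : ‖1 - vv‖ ≤ 1 := by
    have : 1 - vv = ((-3 / 14 : ℝ) : ℂ) + ((-1 / 2 : ℝ) : ℂ) * Complex.I := by
      rw [vv]; push_cast; ring
    rw [this]
    refine (norm_add_le _ _).trans ?_
    rw [norm_mul, Complex.norm_real, Complex.norm_real, Complex.norm_I]
    norm_num
  obtain ⟨i1, i2⟩ := him n hn k Ψ
  have e : (k : ℝ) * Real.pi + (qq n Ψ : ℝ) =
      -4 * ((Prim n k Ψ vv - Prim n k Ψ (1 + Complex.I)).im +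
        (Prim n k Ψ 1 - Prim n k Ψ vv).im) := by
    rw [Complex.sub_im, Complex.sub_im, i1, i2]
    ring
  have a1 := (Complex.abs_im_le_norm (Prim n k Ψ vv - Prim n k Ψ (1 + Complex.I))).trans
    (h1.trans (mul_le_mul_of_nonneg_left d1 hr0))
  have a2 := (Complex.abs_im_le_norm (Prim n k Ψ 1 - Prim n k Ψ vv)).trans
    (h2.trans (mul_le_mul_of_nonneg_left d2 hr0))
  rw [e, abs_mul]
  have a3 := abs_add_le (Prim n k Ψ vv - Prim n k Ψ (1 + Complex.I)).im
    (Prim n k Ψ 1 - Prim n k Ψ vv).im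
  have a4 : |(-4 : ℝ)| = 4 := by norm_num
  rw [a4]
  calc 4 * |(Prim n k Ψ vv - Prim n k Ψ (1 + Complex.I)).im + (Prim n k Ψ 1 - Prim n k Ψ vv).im|
      ≤ 4 * (r * 1 + r * 1) := by linarith
    _ = 16 * Real.exp (-(6.53 * n)) := by rw [hr]; ring

end Pool.Agent.H303R2.PiT15
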